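import Pool.Agent.X170.Log2.Main

set_option autoImplicit false

open MeasureTheory Filter Topology Metric

namespace Pool.Agent.X170.Log2

lemma Dio.smul {c : ℝ} (k : ℕ) {x : UnitAddCircle} (h : Dio c k x) {p : ℕ}
    (hp : 1 ≤ p) : Dio (c * (p : ℝ) ^ (-(k : ℝ))) k (p • x) := by
  intro d hd
  have h1 := h (d * p) (Nat.mul_pos hd hp)
  have h2 : ((d * p : ℕ) : ℝ) ^ (-(k : ℝ)) = (p : ℝ) ^ (-(k : ℝ)) * (d : ℝ) ^ (-(k : ℝ)) := by
    push_cast
    rw [Real.mul_rpow (by positivity) (by positivity)]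
    ring
  rw [h2] at h1
  rw [smul_smul]
  calc _ = c * ((p : ℝ) ^ (-(k : ℝ)) * (d : ℝ) ^ (-(k : ℝ))) := by ring
    _ ≤ _ := h1

lemma Dio.of_smul {c : ℝ} (k : ℕ) {x : UnitAddCircle} {p : ℕ} (hp : 1 ≤ p)
    (h : Dio c k (p • x)) : Dio (c / p) k x := by
  intro d hd
  have h1 := h d hd
  have hp0 : (0 : ℝ) < p := by exact_mod_cast hp
  have h2 : ‖d • p • x‖ ≤ p * ‖d • x‖ := by
    have : d • p • x = p • (d • x) := by rw [smul_smul, smul_smul, mul_comm]
    rw [this]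
    exact norm_nsmul_le
  have h3 : c / p * (d : ℝ) ^ (-(k : ℝ)) = (c * (d : ℝ) ^ (-(k : ℝ))) / p := by ring
  rw [h3, div_le_iff₀ hp0]
  linarith

/-- The points which satisfy `Dio c k` for some `c > 0`. -/
def A (k : ℕ) : Set UnitAddCircle := {x | ∃ c : ℝ, 0 < c ∧ Dio c k x}

lemma A_smul (k : ℕ) {p : ℕ} (hp : 1 ≤ p) : (fun x : UnitAddCircle => p • x) ⁻¹' A k = A k := by
  have hp0 : (0 : ℝ) < p := by exact_mod_cast hp
  ext x
  constructor
  · rintro ⟨c, hc, h⟩
    exact ⟨c / p, by positivity, h.of_smul k hp⟩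
  · rintro ⟨c, hc, h⟩
    exact ⟨c * (p : ℝ) ^ (-(k : ℝ)), by positivity, h.smul k hp⟩

lemma A_meas (k : ℕ) : MeasurableSet (A k) := by
  have : A k = ⋃ n : ℕ, ⋂ d : ℕ, ⋂ _ : 1 ≤ d,
      {x : UnitAddCircle | 1 / ((n : ℝ) + 1) * (d : ℝ) ^ (-(k : ℝ)) ≤ ‖d • x‖} := by
    ext x
    simp only [A, Dio, Set.mem_ofPred_eq, Set.mem_iUnion, Set.mem_iInter]
    constructor
    · rintro ⟨c, hc, h⟩
      obtain ⟨n, hn⟩ := exists_nat_one_div_lt hc
      refine ⟨n, fun d hd => le_trans ?_ (h d hd)⟩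
      exact mul_le_mul_of_nonneg_right hn.le (by positivity)
    · rintro ⟨n, h⟩
      exact ⟨1 / ((n : ℝ) + 1), by positivity, h⟩
  rw [this]
  refine MeasurableSet.iUnion fun n => MeasurableSet.iInter fun d => MeasurableSet.iInter fun _ => ?_
  exact (isClosed_le continuous_const ((continuous_nsmul d).norm)).measurableSet

lemma log_half {c r : ℝ} (hc : 0 < c) (hr : 0 < r) (hrc : r ≤ (c / 2) ^ 2) :
    -Real.log r / 2 ≤ Real.log (c / (2 * r)) := by
  have h1 : Real.log (c / (2 * r)) = Real.log (c / 2) - Real.log r := by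
    rw [← Real.log_div (by positivity) hr.ne']
    congr 1
    field_simp
  have h2 : Real.log r ≤ 2 * Real.log (c / 2) := by
    have := Real.log_le_log hr hrc
    rwa [Real.log_pow] at this
  rw [h1]
  linarith

lemma ball_log {p q : ℕ} (hp : 2 ≤ p) (hq : 2 ≤ q)
    (hpq : Irrational (Real.log p / Real.log q)) {μ : Measure UnitAddCircle}
    [IsProbabilityMeasure μ] (hμ : Inv p q μ) {x : UnitAddCircle} {c τ r : ℝ} (hτ : 0 ≤ τ)
    (hc : 0 < c) (hx : Dio c τ x) (hr : 0 < r) (hr1 : r < 1) (hrc : r ≤ (c / 2) ^ 2)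
    (hrc2 : 2 * r < c) :
    μ.real (ball x r) ≤ 8 * (τ + 1) ^ 2 * Real.log p * Real.log q / (Real.log r) ^ 2 := by
  have hlp : 0 < Real.log p := Real.log_pos (by exact_mod_cast (by omega : 1 < p))
  have hlq : 0 < Real.log q := Real.log_pos (by exact_mod_cast (by omega : 1 < q))
  refine (ball_dio hp hq hpq hμ hτ hx hr hrc2).trans ?_
  have h1 := log_half hc hr hrc
  have h2 : Real.log r < 0 := Real.log_neg hr hr1
  have h3 : 0 < Real.log (c / (2 * r)) := by linarith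
  have h4 : 0 < (Real.log r) ^ 2 := by nlinarith
  rw [div_le_div_iff₀ (by positivity) h4]
  have h5 : (Real.log r) ^ 2 ≤ 4 * (Real.log (c / (2 * r))) ^ 2 := by nlinarith
  have h6 : 0 ≤ 2 * (τ + 1) ^ 2 * Real.log p * Real.log q := by positivity
  calc 2 * (τ + 1) ^ 2 * Real.log p * Real.log q * (Real.log r) ^ 2
      ≤ 2 * (τ + 1) ^ 2 * Real.log p * Real.log q * (4 * (Real.log (c / (2 * r))) ^ 2) :=
        mul_le_mul_of_nonneg_left h5 h6
    _ = _ := by ring

lemma dichotomy {p q : ℕ} (hp : 2 ≤ p) (hq : 2 ≤ q)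
    (hpq : Irrational (Real.log p / Real.log q)) {μ : Measure UnitAddCircle}
    [IsProbabilityMeasure μ] (hμ : Inv p q μ)
    (herg : ∀ E : Set UnitAddCircle, MeasurableSet E → (fun x : UnitAddCircle => p • x) ⁻¹' E = E →
      (fun x : UnitAddCircle => q • x) ⁻¹' E = E → μ E = 0 ∨ μ E = 1) :
    (∀ᵐ x ∂μ, ∀ (k : ℕ) (c : ℝ), 0 < c → ∃ d : ℕ, 1 ≤ d ∧ ‖d • x‖ < c / (d : ℝ) ^ k) ∨
      ∃ K : ℝ, ∀ᵐ x ∂μ, ∃ r₀ : ℝ, 0 < r₀ ∧ ∀ r : ℝ, 0 < r → r < r₀ →
        μ.real (ball x r) ≤ K / (Real.log r) ^ 2 := by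
  by_cases h : ∃ k : ℕ, μ (A k) = 1
  · right
    obtain ⟨k, hk⟩ := h
    refine ⟨8 * ((k : ℝ) + 1) ^ 2 * Real.log p * Real.log q, ?_⟩
    have hae : ∀ᵐ x ∂μ, x ∈ A k := by
      rw [ae_iff]
      have : {x | x ∉ A k} = (A k)ᶜ := rfl
      rw [this, prob_compl_eq_zero_iff (A_meas k)]
      exact hk
    filter_upwards [hae] with x hx
    obtain ⟨c, hc, hx⟩ := hx
    refine ⟨min (min 1 ((c / 2) ^ 2)) (c / 2), by positivity, fun r hr hr1 => ?_⟩
    rw [lt_min_iff, lt_min_iff] at hr1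
    exact ball_log hp hq hpq hμ (by positivity) hc hx hr hr1.1.1 hr1.1.2.le (by linarith)
  · left
    push Not at h
    have h0 : ∀ k : ℕ, ∀ᵐ x ∂μ, x ∉ A k := by
      intro k
      rcases herg (A k) (A_meas k) (A_smul k (by omega)) (A_smul k (by omega)) with h1 | h1
      · rw [ae_iff]
        simpa using h1
      · exact absurd h1 (h k)
    have h1 := ae_all_iff.2 h0
    filter_upwards [h1] with x hx k c hc
    have h2 : ¬ Dio c k x := fun h3 => hx k ⟨c, hc, h3⟩
    unfold Dio at h2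
    push Not at h2
    obtain ⟨d, hd, h3⟩ := h2
    refine ⟨d, hd, ?_⟩
    rw [Real.rpow_neg (by positivity), Real.rpow_natCast] at h3
    rwa [div_eq_mul_inv]

/-- `E` has zero `|log r| ^ (-2)` Hausdorff content in every small scale. -/
def LogSqNull (E : Set UnitAddCircle) : Prop :=
  ∀ ε : ℝ, 0 < ε → ∃ (y : ℕ → UnitAddCircle) (r : ℕ → ℝ), (∀ n, 0 < r n ∧ r n < ε) ∧
    E ⊆ ⋃ n, ball (y n) (r n) ∧ Summable (fun n => 1 / (Real.log (r n)) ^ 2) ∧
    ∑' n, 1 / (Real.log (r n)) ^ 2 ≤ ε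

lemma null {p q : ℕ} (hp : 2 ≤ p) (hq : 2 ≤ q)
    (hpq : Irrational (Real.log p / Real.log q)) {μ : Measure UnitAddCircle}
    [IsProbabilityMeasure μ] (hμ : Inv p q μ) {c τ : ℝ} (hτ : 0 ≤ τ)
    (hc : 0 < c) {E : Set UnitAddCircle} (hE : ∀ x ∈ E, Dio c τ x) (hN : LogSqNull E) :
    μ E = 0 := by
  have hlp : 0 < Real.log p := Real.log_pos (by exact_mod_cast (by omega : 1 < p))
  have hlq : 0 < Real.log q := Real.log_pos (by exact_mod_cast (by omega : 1 < q))
  set K : ℝ := 32 * (τ + 1) ^ 2 * Real.log p * Real.log q with hK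
  have hK0 : 0 ≤ K := by positivity
  have main : ∀ ε : ℝ, 0 < ε → ε < 1 / 4 → ε ≤ (c / 4) ^ 2 → 4 * ε < c →
      μ E ≤ ENNReal.ofReal (K * ε) := by
    intro ε hε h1 h2 h3
    obtain ⟨y, r, hr, hcov, hsum, hts⟩ := hN ε hε
    have hle : ∀ n, μ (E ∩ ball (y n) (r n)) ≤ ENNReal.ofReal (K * (1 / (Real.log (r n)) ^ 2)) := by
      intro n
      rcases Set.eq_empty_or_nonempty (E ∩ ball (y n) (r n)) with h0 | ⟨x, hxE, hxb⟩
      · rw [h0, measure_empty]
        exact zero_le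
      · have hsub : E ∩ ball (y n) (r n) ⊆ ball x (2 * r n) := by
          rintro z ⟨-, hz⟩
          rw [mem_ball] at hz hxb ⊢
          calc dist z x ≤ dist z (y n) + dist (y n) x := dist_triangle _ _ _
            _ < 2 * r n := by rw [dist_comm (y n) x]; linarith
        obtain ⟨hr0, hrε⟩ := hr n
        have hb := ball_log hp hq hpq hμ hτ hc (hE x hxE) (r := 2 * r n) (by linarith)
          (by linarith) (by nlinarith) (by linarith)
        have hl1 : Real.log (r n) < 0 := Real.log_neg hr0 (by linarith)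
        have hl2 : Real.log (2 * r n) ≤ Real.log (r n) / 2 := by
          -- `2 r ≤ sqrt r`
          have e1 : Real.log (2 * r n) = Real.log 2 + Real.log (r n) :=
            Real.log_mul (by norm_num) hr0.ne'
          have e2 : Real.log (r n) ≤ Real.log (1 / 4) := Real.log_le_log hr0 (by linarith)
          have e3 : Real.log (1 / 4) = -(2 * Real.log 2) := by
            rw [one_div, Real.log_inv, show (4 : ℝ) = 2 ^ 2 by norm_num, Real.log_pow]
            norm_num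
          linarith
        have hl3 : (Real.log (r n)) ^ 2 ≤ 4 * (Real.log (2 * r n)) ^ 2 := by nlinarith
        have hl4 : 0 < (Real.log (r n)) ^ 2 := by nlinarith
        have hl5 : 0 < (Real.log (2 * r n)) ^ 2 := by nlinarith
        have hfin : μ.real (ball x (2 * r n)) ≤ K * (1 / (Real.log (r n)) ^ 2) := by
          refine hb.trans ?_
          rw [mul_one_div, div_le_div_iff₀ hl5 hl4, hK]
          have h6 : 0 ≤ 8 * (τ + 1) ^ 2 * Real.log p * Real.log q := by positivity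
          calc 8 * (τ + 1) ^ 2 * Real.log p * Real.log q * (Real.log (r n)) ^ 2
              ≤ 8 * (τ + 1) ^ 2 * Real.log p * Real.log q * (4 * (Real.log (2 * r n)) ^ 2) :=
                mul_le_mul_of_nonneg_left hl3 h6
            _ = _ := by ring
        calc μ (E ∩ ball (y n) (r n)) ≤ μ (ball x (2 * r n)) := measure_mono hsub
          _ = ENNReal.ofReal (μ.real (ball x (2 * r n))) := by
            rw [Measure.real, ENNReal.ofReal_toReal (measure_ne_top _ _)]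
          _ ≤ _ := ENNReal.ofReal_le_ofReal hfin
    calc μ E ≤ μ (⋃ n, E ∩ ball (y n) (r n)) := by
          refine measure_mono fun x hx => ?_
          obtain ⟨n, hn⟩ := Set.mem_iUnion.1 (hcov hx)
          exact Set.mem_iUnion.2 ⟨n, hx, hn⟩
      _ ≤ ∑' n, μ (E ∩ ball (y n) (r n)) := measure_iUnion_le _
      _ ≤ ∑' n, ENNReal.ofReal (K * (1 / (Real.log (r n)) ^ 2)) := ENNReal.tsum_le_tsum hle
      _ = ENNReal.ofReal (∑' n, K * (1 / (Real.log (r n)) ^ 2)) :=
          (ENNReal.ofReal_tsum_of_nonneg (fun n => by positivity) (hsum.mul_left K)).symm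
      _ ≤ ENNReal.ofReal (K * ε) := by
          apply ENNReal.ofReal_le_ofReal
          rw [tsum_mul_left]
          exact mul_le_mul_of_nonneg_left hts hK0
  have hlim : Tendsto (fun ε : ℝ => ENNReal.ofReal (K * ε)) (𝓝[>] 0) (𝓝 0) := by
    have h1 : Tendsto (fun ε : ℝ => K * ε) (𝓝[>] 0) (𝓝 (K * 0)) :=
      (tendsto_id.const_mul K).mono_left nhdsWithin_le_nhds
    rw [mul_zero] at h1
    have h2 := (ENNReal.continuous_ofReal.tendsto 0).comp h1
    rwa [ENNReal.ofReal_zero] at h2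
  have hev : ∀ᶠ ε : ℝ in 𝓝[>] 0, μ E ≤ ENNReal.ofReal (K * ε) := by
    have hm : (0 : ℝ) < min (min (1 / 4) ((c / 4) ^ 2)) (c / 4) := by positivity
    filter_upwards [Ioo_mem_nhdsGT hm] with ε hε
    obtain ⟨h0, h1⟩ := hε
    rw [lt_min_iff, lt_min_iff] at h1
    exact main ε h0 h1.1.1 h1.1.2.le (by linarith)
  exact le_antisymm (ge_of_tendsto hlim hev) zero_le

end Pool.Agent.X170.Log2
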