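import Mathlib

/-!
Uniform logarithmic bounds for the local mass of `×p, ×q` invariant probability measures.
-/

set_option autoImplicit false

open MeasureTheory Filter Topology Metric

namespace Pool.Agent.X170.Log2

/-- The numbers `p ^ i * q ^ j` up to `Q`. -/
noncomputable def S (p q : ℕ) (Q : ℝ) : Finset ℕ :=
  open Classical in (Finset.range (⌊Q⌋₊ + 1)).filter fun n => ∃ i j : ℕ, n = p ^ i * q ^ j

lemma mem_S {p q : ℕ} {Q : ℝ} (hQ : 0 ≤ Q) {n : ℕ} :
    n ∈ S p q Q ↔ (n : ℝ) ≤ Q ∧ ∃ i j : ℕ, n = p ^ i * q ^ j := by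
  unfold S
  simp only [Finset.mem_filter, Finset.mem_range, Nat.lt_succ_iff, Nat.le_floor_iff hQ]

lemma inj_pq {p q : ℕ} (hp : 2 ≤ p) (hq : 2 ≤ q)
    (hpq : Irrational (Real.log p / Real.log q)) {i j k l : ℕ}
    (h : p ^ i * q ^ j = p ^ k * q ^ l) : i = k ∧ j = l := by
  have hlp : 0 < Real.log p := Real.log_pos (by exact_mod_cast (by omega : 1 < p))
  have hlq : 0 < Real.log q := Real.log_pos (by exact_mod_cast (by omega : 1 < q))
  have hp0 : (p : ℝ) ≠ 0 := by positivity
  have hq0 : (q : ℝ) ≠ 0 := by positivity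
  have h1 : (i : ℝ) * Real.log p + j * Real.log q = k * Real.log p + l * Real.log q := by
    have h2 : ((p : ℝ) ^ i * (q : ℝ) ^ j) = (p : ℝ) ^ k * (q : ℝ) ^ l := by exact_mod_cast h
    have h3 := congrArg Real.log h2
    rwa [Real.log_mul (by positivity) (by positivity), Real.log_mul (by positivity) (by positivity),
      Real.log_pow, Real.log_pow, Real.log_pow, Real.log_pow] at h3
  by_cases hik : i = k
  · subst hik
    refine ⟨rfl, ?_⟩
    have : (j : ℝ) * Real.log q = l * Real.log q := by linarith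
    exact_mod_cast mul_right_cancel₀ hlq.ne' this
  · exfalso
    have hne : ((i : ℝ) - k) ≠ 0 := by
      intro h0
      apply hik
      exact_mod_cast sub_eq_zero.1 h0
    apply hpq
    refine ⟨((l : ℚ) - j) / ((i : ℚ) - k), ?_⟩
    push_cast
    rw [div_eq_div_iff hne hlq.ne']
    linarith

lemma card_S {p q : ℕ} (hp : 2 ≤ p) (hq : 2 ≤ q)
    (hpq : Irrational (Real.log p / Real.log q)) {Q : ℝ} (hQ : 1 ≤ Q) :
    (Real.log Q) ^ 2 / (2 * Real.log p * Real.log q) ≤ (S p q Q).card := by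
  have hlp : 0 < Real.log p := Real.log_pos (by exact_mod_cast (by omega : 1 < p))
  have hlq : 0 < Real.log q := Real.log_pos (by exact_mod_cast (by omega : 1 < q))
  have hp0 : (p : ℝ) ≠ 0 := by positivity
  have hq0 : (q : ℝ) ≠ 0 := by positivity
  set L := Real.log Q with hL
  have hL0 : 0 ≤ L := Real.log_nonneg hQ
  set a := Real.log p
  set b := Real.log q
  set n := ⌊L / a⌋₊ with hn
  have hn1 : (n : ℝ) ≤ L / a := Nat.floor_le (by positivity)
  have hn2 : L / a < n + 1 := Nat.lt_floor_add_one _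
  -- the pairs
  let P : Finset (Σ _ : ℕ, ℕ) :=
    (Finset.range (n + 1)).sigma fun i => Finset.range (⌊(L - i * a) / b⌋₊ + 1)
  have hsub : P.card ≤ (S p q Q).card := by
    refine Finset.card_le_card_of_injOn (fun s => p ^ s.1 * q ^ s.2) ?_ ?_
    · intro s hs
      simp only [P, Finset.coe_sigma, Set.mem_sigma_iff, Finset.coe_range, Set.mem_Iio,
        Nat.lt_succ_iff] at hs
      obtain ⟨h1, h2⟩ := hs
      rw [Finset.mem_coe, mem_S (by linarith)]
      refine ⟨?_, s.1, s.2, rfl⟩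
      have h3 : (s.1 : ℝ) * a ≤ L := by
        have : (s.1 : ℝ) ≤ L / a := le_trans (by exact_mod_cast h1) hn1
        rwa [le_div_iff₀ hlp] at this
      have h4 : (s.2 : ℝ) ≤ (L - s.1 * a) / b := by
        have h5 : (0 : ℝ) ≤ (L - s.1 * a) / b := div_nonneg (by linarith) hlq.le
        exact (Nat.le_floor_iff h5).1 h2
      rw [le_div_iff₀ hlq] at h4
      have h6 : Real.log ((p : ℝ) ^ s.1 * (q : ℝ) ^ s.2) ≤ Real.log Q := by
        rw [Real.log_mul (by positivity) (by positivity), Real.log_pow, Real.log_pow]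
        linarith
      have h7 := (Real.log_le_log_iff (by positivity) (by linarith)).1 h6
      push_cast
      exact h7
    · intro s _ t _ hst
      have h := inj_pq hp hq hpq hst
      cases s; cases t
      simp only at h
      obtain ⟨rfl, rfl⟩ := h
      rfl
  have hcard : ((P.card : ℕ) : ℝ) = ∑ i ∈ Finset.range (n + 1), ((⌊(L - i * a) / b⌋₊ : ℝ) + 1) := by
    simp only [P, Finset.card_sigma, Finset.card_range]
    push_cast
    rfl
  have hsum : ∑ i ∈ Finset.range (n + 1), (L - i * a) / b ≤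
      ∑ i ∈ Finset.range (n + 1), ((⌊(L - i * a) / b⌋₊ : ℝ) + 1) :=
    Finset.sum_le_sum fun i _ => (Nat.lt_floor_add_one _).le
  have hsum2 : ∑ i ∈ Finset.range (n + 1), (L - i * a) / b =
      ((n + 1) * (L - a * n / 2)) / b := by
    have hid : ∀ m : ℕ, ∑ i ∈ Finset.range (m + 1), (L - i * a) / b =
        ((m + 1) * (L - a * m / 2)) / b := by
      intro m
      induction m with
      | zero => simp
      | succ m ih =>
        rw [Finset.sum_range_succ, ih]
        push_cast
        field_simp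
        ring
    exact hid n
  have hkey : L ^ 2 / (2 * a * b) ≤ ((n + 1) * (L - a * n / 2)) / b := by
    rw [div_le_div_iff₀ (by positivity) hlq]
    have h1 : a * n ≤ L := by
      rw [le_div_iff₀ hlp] at hn1
      linarith
    have h2 : L ≤ a * (n + 1) := by
      rw [div_lt_iff₀ hlp] at hn2
      linarith
    have h3 : L ^ 2 ≤ (a * (n + 1)) * (2 * (L - a * n / 2)) := by
      have h4 : L ≤ 2 * (L - a * n / 2) := by linarith
      calc L ^ 2 = L * L := by ring
        _ ≤ (a * (n + 1)) * (2 * (L - a * n / 2)) := by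
          exact mul_le_mul h2 h4 hL0 (by positivity)
    calc L ^ 2 * b ≤ ((a * (n + 1)) * (2 * (L - a * n / 2))) * b :=
          mul_le_mul_of_nonneg_right h3 hlq.le
      _ = (n + 1) * (L - a * n / 2) * (2 * a * b) := by ring
  calc L ^ 2 / (2 * a * b) ≤ ((n + 1) * (L - a * n / 2)) / b := hkey
    _ = ∑ i ∈ Finset.range (n + 1), (L - i * a) / b := hsum2.symm
    _ ≤ _ := hsum
    _ = ((P.card : ℕ) : ℝ) := hcard.symm
    _ ≤ _ := by exact_mod_cast hsub

/-- Invariance under `×p` and `×q`. -/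
def Inv (p q : ℕ) (μ : Measure UnitAddCircle) : Prop :=
  MeasurePreserving (fun x : UnitAddCircle => p • x) μ μ ∧
    MeasurePreserving (fun x : UnitAddCircle => q • x) μ μ

lemma Inv.mem {p q : ℕ} {μ : Measure UnitAddCircle} (h : Inv p q μ) (i j : ℕ) :
    MeasurePreserving (fun x : UnitAddCircle => (p ^ i * q ^ j) • x) μ μ := by
  have h1 : ∀ (r : ℕ), MeasurePreserving (fun x : UnitAddCircle => r • x) μ μ → ∀ i : ℕ,
      MeasurePreserving (fun x : UnitAddCircle => (r ^ i) • x) μ μ := by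
    intro r hr i
    induction i with
    | zero =>
      have : (fun x : UnitAddCircle => (r ^ 0) • x) = id := by
        ext x; simp
      rw [this]
      exact MeasurePreserving.id μ
    | succ i ih =>
      have h2 := hr.comp ih
      have : (fun x : UnitAddCircle => (r ^ (i + 1)) • x) =
          (fun x : UnitAddCircle => r • x) ∘ (fun x : UnitAddCircle => (r ^ i) • x) := by
        ext x
        simp only [Function.comp]
        rw [smul_smul, pow_succ']
      rw [this]
      exact h2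
  have h3 := (h1 p h.1 i).comp (h1 q h.2 j)
  have : (fun x : UnitAddCircle => (p ^ i * q ^ j) • x) =
      (fun x : UnitAddCircle => (p ^ i) • x) ∘ (fun x : UnitAddCircle => (q ^ j) • x) := by
    ext x
    simp only [Function.comp]
    rw [smul_smul]
  rw [this]
  exact h3

/-- The main lemma: a ball about a point with no small multiples has small measure. -/
lemma ball_le {p q : ℕ} (hp : 2 ≤ p) (hq : 2 ≤ q)
    (hpq : Irrational (Real.log p / Real.log q)) {μ : Measure UnitAddCircle}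
    [IsProbabilityMeasure μ] (hμ : Inv p q μ) {x : UnitAddCircle} {r Q : ℝ} (hr : 0 < r)
    (hQ : 1 < Q) (h : ∀ d : ℕ, 1 ≤ d → (d : ℝ) < Q → 2 * Q * r ≤ ‖d • x‖) :
    μ.real (ball x r) ≤ 2 * Real.log p * Real.log q / (Real.log Q) ^ 2 := by
  have hlp : 0 < Real.log p := Real.log_pos (by exact_mod_cast (by omega : 1 < p))
  have hlq : 0 < Real.log q := Real.log_pos (by exact_mod_cast (by omega : 1 < q))
  have hlQ : 0 < Real.log Q := Real.log_pos hQ
  have hQ0 : 0 ≤ Q := by linarith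
  have hcard := card_S hp hq hpq hQ.le
  have hcpos : 0 < ((S p q Q).card : ℝ) := lt_of_lt_of_le (by positivity) hcard
  have hmain : ((S p q Q).card : ℝ) * μ.real (ball x r) ≤ 1 := by
    by_contra hcon
    rw [not_le] at hcon
    have hsum : μ Set.univ < ∑ n ∈ S p q Q, μ ((fun z : UnitAddCircle => n • z) ⁻¹' ball x r) := by
      have h1 : ∀ n ∈ S p q Q, μ ((fun z : UnitAddCircle => n • z) ⁻¹' ball x r) = μ (ball x r) := by
        intro n hn
        obtain ⟨_, i, j, rfl⟩ := (mem_S hQ0).1 hn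
        exact (hμ.mem i j).measure_preimage measurableSet_ball.nullMeasurableSet
      rw [Finset.sum_congr rfl h1, Finset.sum_const, measure_univ, nsmul_eq_mul]
      have h2 : (((S p q Q).card : ENNReal) * μ (ball x r)).toReal = 
          ((S p q Q).card : ℝ) * μ.real (ball x r) := by
        rw [ENNReal.toReal_mul]
        simp [Measure.real]
      have h3 : ((S p q Q).card : ENNReal) * μ (ball x r) ≠ ⊤ :=
        ENNReal.mul_ne_top (ENNReal.natCast_ne_top _) (measure_ne_top _ _)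
      rw [← ENNReal.ofReal_toReal h3, h2, ← ENNReal.ofReal_one]
      exact (ENNReal.ofReal_lt_ofReal_iff (by linarith)).2 hcon
    obtain ⟨m, hm, n, hn, hmn, z, hzm, hzn⟩ :=
      exists_nonempty_inter_of_measure_univ_lt_sum_measure μ
        (fun n _ => (((continuous_nsmul n).measurable measurableSet_ball).nullMeasurableSet)) hsum
    wlog hlt : m < n generalizing m n
    · exact this n hn m hm hmn.symm hzn hzm (lt_of_le_of_ne (not_lt.1 hlt) hmn.symm)
    simp only [Set.mem_preimage, mem_ball, dist_eq_norm] at hzm hzn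
    obtain ⟨hmQ, -⟩ := (mem_S hQ0).1 hm
    obtain ⟨hnQ, -⟩ := (mem_S hQ0).1 hn
    obtain ⟨d, rfl⟩ := Nat.exists_eq_add_of_lt hlt
    obtain ⟨e, he, hne⟩ : ∃ e : ℕ, 1 ≤ e ∧ m + d + 1 = m + e := ⟨d + 1, by omega, by omega⟩
    rw [hne] at hnQ hzn
    push_cast at hnQ
    have hm1 : 1 ≤ m := by
      obtain ⟨_, i, j, hij⟩ := (mem_S hQ0).1 hm
      rw [hij]
      exact Nat.mul_pos (pow_pos (by omega) _) (pow_pos (by omega) _)
    have hm1' : (1 : ℝ) ≤ m := by exact_mod_cast hm1
    have he1 : (1 : ℝ) ≤ e := by exact_mod_cast he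
    have h4 := h e he (by linarith)
    have h5 : e • x = e • (x - m • z) + m • ((m + e) • z - m • z) := by
      rw [add_smul m e z, add_sub_cancel_left, smul_sub, smul_smul, smul_smul, mul_comm m e]
      abel
    have h6 : ‖e • (x - m • z)‖ ≤ e * ‖x - m • z‖ := norm_nsmul_le
    have h7 : ‖m • ((m + e) • z - m • z)‖ ≤ m * ‖(m + e) • z - m • z‖ := norm_nsmul_le
    have h8 : ‖(m + e) • z - m • z‖ < 2 * r := by
      calc ‖(m + e) • z - m • z‖ = ‖((m + e) • z - x) - (m • z - x)‖ := by congr 1; abel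
        _ ≤ ‖(m + e) • z - x‖ + ‖m • z - x‖ := norm_sub_le _ _
        _ < 2 * r := by linarith
    have h9 : ‖x - m • z‖ < r := by rwa [norm_sub_rev]
    have h10 : ‖e • x‖ < 2 * Q * r := by
      calc ‖e • x‖ ≤ ‖e • (x - m • z)‖ + ‖m • ((m + e) • z - m • z)‖ := by
            rw [h5]; exact norm_add_le _ _
        _ ≤ e * ‖x - m • z‖ + m * ‖(m + e) • z - m • z‖ := add_le_add h6 h7
        _ < e * r + m * (2 * r) := by
            have h11 : (e : ℝ) * ‖x - m • z‖ < e * r := mul_lt_mul_of_pos_left h9 (by linarith)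
            have h12 : (m : ℝ) * ‖(m + e) • z - m • z‖ ≤ m * (2 * r) :=
              mul_le_mul_of_nonneg_left h8.le (by linarith)
            linarith
        _ = (m + (m + e)) * r := by ring
        _ ≤ 2 * Q * r := mul_le_mul_of_nonneg_right (by linarith) hr.le
    linarith
  have hb : μ.real (ball x r) ≤ 1 / ((S p q Q).card : ℝ) := by
    rw [le_div_iff₀ hcpos]; linarith
  refine hb.trans ?_
  rw [div_le_div_iff₀ hcpos (by positivity)]
  rw [div_le_iff₀ (by positivity)] at hcard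
  linarith

/-- Points with an irrationality exponent. -/
def Dio (c τ : ℝ) (x : UnitAddCircle) : Prop :=
  ∀ d : ℕ, 1 ≤ d → c * (d : ℝ) ^ (-τ) ≤ ‖d • x‖

lemma ball_dio {p q : ℕ} (hp : 2 ≤ p) (hq : 2 ≤ q)
    (hpq : Irrational (Real.log p / Real.log q)) {μ : Measure UnitAddCircle}
    [IsProbabilityMeasure μ] (hμ : Inv p q μ) {x : UnitAddCircle} {c τ r : ℝ} (hτ : 0 ≤ τ)
    (hx : Dio c τ x) (hr : 0 < r) (hrc : 2 * r < c) :
    μ.real (ball x r) ≤
      2 * (τ + 1) ^ 2 * Real.log p * Real.log q / (Real.log (c / (2 * r))) ^ 2 := by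
  have hc : 0 < c := by linarith
  have h1 : 1 < c / (2 * r) := by rwa [lt_div_iff₀ (by linarith), one_mul]
  set Q : ℝ := (c / (2 * r)) ^ (1 / (τ + 1)) with hQdef
  have hQ : 1 < Q := Real.one_lt_rpow h1 (by positivity)
  have hQ0 : 0 < Q := by linarith
  have hpow : Q ^ (τ + 1) = c / (2 * r) := by
    rw [hQdef, ← Real.rpow_mul (by positivity), one_div, inv_mul_cancel₀ (by positivity),
      Real.rpow_one]
  have hlog : Real.log Q = Real.log (c / (2 * r)) / (τ + 1) := by
    rw [hQdef, Real.log_rpow (by positivity)]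
    ring
  have h := ball_le hp hq hpq hμ (x := x) hr hQ (by
    intro d hd hdQ
    refine le_trans ?_ (hx d hd)
    have hd0 : (0 : ℝ) < d := by exact_mod_cast hd
    have h2 : Q ^ (-τ) ≤ (d : ℝ) ^ (-τ) := by
      rw [Real.rpow_neg hQ0.le, Real.rpow_neg hd0.le]
      exact inv_anti₀ (Real.rpow_pos_of_pos hd0 _) (Real.rpow_le_rpow hd0.le hdQ.le hτ)
    refine le_trans ?_ (mul_le_mul_of_nonneg_left h2 hc.le)
    have h3 : c = 2 * r * Q ^ (τ + 1) := by rw [hpow]; field_simp
    have h4 : c * Q ^ (-τ) = 2 * r * (Q ^ (τ + 1) * Q ^ (-τ)) := by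
      conv_lhs => rw [h3]
      ring
    rw [h4, ← Real.rpow_add hQ0]
    have h5 : τ + 1 + -τ = 1 := by ring
    rw [h5, Real.rpow_one]
    linarith)
  have hlc : 0 < Real.log (c / (2 * r)) := Real.log_pos h1
  refine h.trans (le_of_eq ?_)
  rw [hlog]
  field_simp

/-- Infinitely many scales at which an irrational number has no small multiples. -/
lemma exists_scale {x : ℝ} (hx : Irrational x) (Q₀ : ℕ) : ∃ Q : ℕ, Q₀ ≤ Q ∧ 2 ≤ Q ∧
    ∀ d : ℕ, 1 ≤ d → d < Q → 1 / (2 * (Q : ℝ)) ≤ ‖d • (x : UnitAddCircle)‖ := by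
  by_contra hcon
  push Not at hcon
  set N := max Q₀ 2 with hN
  have hN2 : 2 ≤ N := le_max_right _ _
  have key : ∀ Q : ℕ, N ≤ Q → ∃ d : ℕ, ∃ a : ℤ, 1 ≤ d ∧ d < Q ∧
      |(d : ℝ) * x - a| < 1 / (2 * (Q : ℝ)) := by
    intro Q hQ
    obtain ⟨d, h1, h2, h3⟩ := hcon Q (le_trans (le_max_left _ _) hQ) (hN2.trans hQ)
    refine ⟨d, round ((d : ℝ) * x), h1, h2, ?_⟩
    have h4 : (d • (x : UnitAddCircle)) = ((d * x : ℝ) : UnitAddCircle) := by
      rw [← AddCircle.coe_nsmul, nsmul_eq_mul]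
    rw [h4, UnitAddCircle.norm_eq] at h3
    exact h3
  choose! d a hd1 hd2 hda using key
  have step : ∀ Q : ℕ, N ≤ Q → (d Q : ℤ) * a (Q + 1) = (d (Q + 1) : ℤ) * a Q := by
    intro Q hQ
    have hQ0 : (0 : ℝ) < Q := by exact_mod_cast (by omega : 0 < Q)
    have e1 := hda Q hQ
    have e2 := hda (Q + 1) (by omega)
    have f1 := hd2 Q hQ
    have f2 := hd2 (Q + 1) (by omega)
    have g1 := hd1 Q hQ
    have g2 := hd1 (Q + 1) (by omega)
    have f1' : (d Q : ℝ) ≤ Q - 1 := by
      have : d Q + 1 ≤ Q := f1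
      have h : ((d Q + 1 : ℕ) : ℝ) ≤ Q := by exact_mod_cast this
      push_cast at h
      linarith
    have f2' : (d (Q + 1) : ℝ) ≤ Q := by exact_mod_cast (by omega : d (Q + 1) ≤ Q)
    have g1' : (1 : ℝ) ≤ d Q := by exact_mod_cast g1
    have g2' : (1 : ℝ) ≤ d (Q + 1) := by exact_mod_cast g2
    have habs : |((d Q : ℝ) * a (Q + 1) - d (Q + 1) * a Q)| < 1 := by
      have h1 : ((d Q : ℝ) * a (Q + 1) - d (Q + 1) * a Q) =
          d (Q + 1) * ((d Q : ℝ) * x - a Q) - d Q * ((d (Q + 1) : ℝ) * x - a (Q + 1)) := by ring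
      rw [h1]
      refine lt_of_le_of_lt (abs_sub _ _) ?_
      rw [abs_mul, abs_mul, abs_of_pos (by linarith : (0 : ℝ) < d (Q + 1)),
        abs_of_pos (by linarith : (0 : ℝ) < d Q)]
      have h2 : (d (Q + 1) : ℝ) * |(d Q : ℝ) * x - a Q| < Q * (1 / (2 * (Q : ℝ))) :=
        mul_lt_mul' f2' e1 (abs_nonneg _) hQ0
      have h3 : (d Q : ℝ) * |(d (Q + 1) : ℝ) * x - a (Q + 1)| ≤
          Q * (1 / (2 * ((Q : ℝ) + 1))) := by
        refine mul_le_mul (by linarith) ?_ (abs_nonneg _) hQ0.le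
        have := e2.le
        push_cast at this
        exact this
      have h4 : (Q : ℝ) * (1 / (2 * (Q : ℝ))) = 1 / 2 := by field_simp
      have h5 : (Q : ℝ) * (1 / (2 * ((Q : ℝ) + 1))) ≤ 1 / 2 := by
        rw [mul_one_div, div_le_div_iff₀ (by positivity) (by norm_num)]
        linarith
      linarith
    have h6 : |((d Q : ℤ) * a (Q + 1) - (d (Q + 1) : ℤ) * a Q)| < 1 := by
      have h7 : ((|((d Q : ℤ) * a (Q + 1) - (d (Q + 1) : ℤ) * a Q)| : ℤ) : ℝ) < 1 := by
        push_cast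
        exact habs
      exact_mod_cast h7
    have h8 := Int.abs_lt_one_iff.1 h6
    linarith
  -- the quotient is constant
  set ρ : ℚ := (a N : ℚ) / d N with hρ
  have hconst : ∀ k : ℕ, (a (N + k) : ℚ) = ρ * d (N + k) := by
    intro k
    induction k with
    | zero =>
      have : (d N : ℚ) ≠ 0 := by
        have := hd1 N le_rfl
        positivity
      simp only [add_zero, hρ]
      field_simp
    | succ k ih =>
      have h := step (N + k) (by omega)
      have h' : (d (N + k) : ℚ) * a (N + k + 1) = (d (N + k + 1) : ℚ) * a (N + k) := by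
        exact_mod_cast h
      rw [ih] at h'
      have h0 : (d (N + k) : ℚ) ≠ 0 := by
        have := hd1 (N + k) (by omega)
        positivity
      have e : N + (k + 1) = N + k + 1 := by ring
      rw [e]
      apply mul_left_cancel₀ h0
      rw [h']
      ring
  have hlim : ∀ k : ℕ, |x - ρ| ≤ 1 / (2 * ((N : ℝ) + k)) := by
    intro k
    have h := hda (N + k) (by omega)
    have hc : (a (N + k) : ℝ) = ρ * d (N + k) := by exact_mod_cast hconst k
    have g : (1 : ℝ) ≤ d (N + k) := by exact_mod_cast hd1 (N + k) (by omega)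
    rw [hc] at h
    have h1 : (d (N + k) : ℝ) * x - ρ * d (N + k) = d (N + k) * (x - ρ) := by ring
    rw [h1, abs_mul, abs_of_pos (by linarith : (0 : ℝ) < d (N + k))] at h
    push_cast at h
    calc |x - ρ| ≤ d (N + k) * |x - ρ| := by nlinarith [abs_nonneg (x - (ρ : ℝ))]
      _ ≤ _ := h.le
  have hzero : |x - ρ| = 0 := by
    by_contra hne
    have hpos : 0 < |x - (ρ : ℝ)| := lt_of_le_of_ne (abs_nonneg _) (Ne.symm hne)
    obtain ⟨k, hk⟩ := exists_nat_gt (1 / |x - (ρ : ℝ)|)
    have h1 := hlim k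
    have hN0 : (0 : ℝ) < N := by exact_mod_cast (by omega : 0 < N)
    have h2 : 1 / (2 * ((N : ℝ) + k)) < |x - (ρ : ℝ)| := by
      rw [div_lt_iff₀ (by positivity)]
      rw [div_lt_iff₀ hpos] at hk
      nlinarith
    linarith
  rw [abs_eq_zero, sub_eq_zero] at hzero
  exact hx ⟨ρ, hzero.symm⟩

lemma ball_irr {x : ℝ} (hx : Irrational x) {r₀ : ℝ} (hr₀ : 0 < r₀) : ∃ r : ℝ, 0 < r ∧ r < r₀ ∧
    r < 1 / 4 ∧ ∀ p q : ℕ, 2 ≤ p → 2 ≤ q → Irrational (Real.log p / Real.log q) →
      ∀ μ : Measure UnitAddCircle, IsProbabilityMeasure μ → Inv p q μ →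
        μ.real (ball (x : UnitAddCircle) r) ≤
          8 * Real.log p * Real.log q / (Real.log (1 / (4 * r))) ^ 2 := by
  obtain ⟨Q₀, hQ₀⟩ := exists_nat_gt (1 / r₀)
  obtain ⟨Q, hQ1, hQ2, hQ⟩ := exists_scale hx Q₀
  have hQR : (2 : ℝ) ≤ Q := by exact_mod_cast hQ2
  have hQ0 : (0 : ℝ) < Q := by linarith
  have hQQ : (Q₀ : ℝ) ≤ Q := by exact_mod_cast hQ1
  refine ⟨1 / (4 * (Q : ℝ) ^ 2), by positivity, ?_, ?_, ?_⟩
  · rw [div_lt_iff₀ hr₀] at hQ₀
    rw [div_lt_iff₀ (by positivity)]
    nlinarith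
  · rw [div_lt_div_iff₀ (by positivity) (by norm_num)]
    nlinarith
  · intro p q hp hq hpq μ _ hμ
    have h := ball_le hp hq hpq hμ (x := (x : UnitAddCircle)) (r := 1 / (4 * (Q : ℝ) ^ 2))
      (Q := Q) (by positivity) (by linarith) (by
        intro d hd hdQ
        have h1 := hQ d hd (by exact_mod_cast hdQ)
        refine le_trans (le_of_eq ?_) h1
        field_simp
        ring)
    refine h.trans (le_of_eq ?_)
    have h2 : 1 / (4 * (1 / (4 * (Q : ℝ) ^ 2))) = (Q : ℝ) ^ 2 := by field_simp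
    rw [h2, Real.log_pow]
    have hl : 0 < Real.log Q := Real.log_pos (by linarith)
    push_cast
    field_simp
    ring

end Pool.Agent.X170.Log2
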